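import Pool.Agent.H32.N6H.Targets

/-!
# All hyperplane sections have points at the places of good reduction
-/

set_option autoImplicit false

open Polynomial Matrix NumberField IsDedekindDomain Pool.Agent.H32.QC Pool.Agent.H34.N6
  Pool.Agent.H32.N6H

namespace Pool.Agent.H72.N6H

lemma sec_val {R : Type} [CommRing R] {n : ℕ} (c : Fin n → R)
    (A : Matrix (Fin (n + 1)) (Fin (n + 1)) R) (x : Fin n → R) :
    x ⬝ᵥ (sec c A *ᵥ x) = (Ec c *ᵥ x) ⬝ᵥ (A *ᵥ (Ec c *ᵥ x)) := by
  unfold sec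
  rw [← mulVec_mulVec, ← mulVec_mulVec, dotProduct_mulVec, vecMul_transpose]

lemma Ec_tail {R : Type} [CommRing R] {n : ℕ} (c : Fin n → R) (y : Fin (n + 1) → R)
    (h : lf c ⬝ᵥ y = 0) : Ec c *ᵥ (fun i => y i.succ) = y := by
  funext i
  refine Fin.cases ?_ (fun i => ?_) i
  · have h1 : lf c ⬝ᵥ y = -y 0 + ∑ i, c i * y i.succ := by
      unfold lf dotProduct
      rw [Fin.sum_univ_succ]
      simp
    rw [h1] at h
    have h2 : (Ec c *ᵥ fun i => y i.succ) 0 = ∑ i, c i * y i.succ := by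
      unfold Ec mulVec dotProduct
      simp
    rw [h2]
    linear_combination h
  · have h2 : (Ec c *ᵥ fun i => y i.succ) i.succ =
        ((1 : Matrix (Fin n) (Fin n) R) *ᵥ fun i => y i.succ) i := by
      unfold Ec mulVec
      simp
    rw [h2, one_mulVec]

/-- a linearly independent family has a dual family -/
lemma exists_dual {k : Type} [Field k] {m : ℕ} (J : Fin 3 → Fin m → k)
    (hJ : LinearIndependent k J) : ∃ R : Fin 3 → Fin m → k,
      ∀ p q, J p ⬝ᵥ R q = (1 : Matrix (Fin 3) (Fin 3) k) p q := by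
  let M : Matrix (Fin 3) (Fin m) k := J
  have h1 : Function.Injective M.vecMul := Matrix.vecMul_injective_iff.2 hJ
  obtain ⟨g, hg⟩ := (Matrix.vecMulLinear M).exists_leftInverse_of_injective
    (LinearMap.ker_eq_bot.2 h1)
  refine ⟨fun q j => g (Pi.single j 1) q, fun p q => ?_⟩
  have h2 : g (J p) = Pi.single p 1 := by
    have h3 := LinearMap.congr_fun hg (Pi.single p 1)
    have h4 : (Matrix.vecMulLinear M) (Pi.single p 1) = J p := by
      rw [Matrix.vecMulLinear_apply, Matrix.single_one_vecMul]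
      rfl
    rw [LinearMap.comp_apply, h4] at h3
    exact h3
  have h5 : g (J p) = ∑ j, J p j • g (Pi.single j 1) := by
    conv_lhs => rw [pi_eq_sum_univ' (J p)]
    rw [map_sum]
    refine Finset.sum_congr rfl fun j _ => ?_
    rw [map_smul]
  have h6 : g (J p) q = ∑ j, J p j * g (Pi.single j 1) q := by
    rw [h5, Finset.sum_apply]
    rfl
  unfold dotProduct
  rw [← h6, h2, Matrix.one_apply, Pi.single_apply]
  simp only [eq_comm]

lemma sum_lt_one {F : Type} [NormedField F] [IsUltrametricDist F] {ι : Type} (s : Finset ι)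
    (f : ι → F) (h : ∀ i ∈ s, ‖f i‖ < 1) : ‖∑ i ∈ s, f i‖ < 1 := by
  classical
  induction s using Finset.induction_on with
  | empty => simp
  | insert a s ha ih =>
    rw [Finset.sum_insert ha]
    refine lt_of_le_of_lt (IsUltrametricDist.norm_add_le_max _ _) (max_lt ?_ ?_)
    · exact h a (Finset.mem_insert_self _ _)
    · exact ih fun i hi => h i (Finset.mem_insert_of_mem hi)

lemma add_lt_one {F : Type} [NormedField F] [IsUltrametricDist F] {a b : F} (ha : ‖a‖ < 1)
    (hb : ‖b‖ < 1) : ‖a + b‖ < 1 :=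
  lt_of_le_of_lt (IsUltrametricDist.norm_add_le_max _ _) (max_lt ha hb)

theorem pf_GRD (hFFZ : T_FFZ) (hHN3 : T_HN3) (hRED : T_RED) (hRSF : T_RSF) : T_GRD := by
  intro K _ _ n hn A B hSD
  obtain ⟨A', B', d, S, hd, hA', hB', hS⟩ := hRED K (n + 1) ((n + 2) * (n + 1)) A B hSD
  refine ⟨S, fun v hv c => ?_⟩
  obtain ⟨k, _, π, hπs, hπk, hint, hlt, happ⟩ := hRSF K v
  obtain ⟨hfin, h2, hcard, hSD'⟩ := hS v hv k π hπs hπk
  let ι : 𝓞 K →+* v.adicCompletion K := (ic v).comp (algebraMap (𝓞 K) K)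
  have hint' : ∀ x, ‖ι x‖ ≤ 1 := hint
  have hlt' : ∀ x, ‖ι x‖ < 1 ↔ π x = 0 := hlt
  have happ' : ∀ y : v.adicCompletion K, ‖y‖ ≤ 1 → ∃ x : 𝓞 K, ‖ι x - y‖ < 1 := happ
  -- the linear form
  obtain ⟨i0, hi0⟩ := Finite.exists_max (fun i => ‖lf c i‖)
  have hl0 : ‖lf c 0‖ = 1 := by
    unfold lf
    simp
  have hi1 : 1 ≤ ‖lf c i0‖ := hl0 ▸ hi0 0
  have hi2 : lf c i0 ≠ 0 := by
    intro h
    rw [h, norm_zero] at hi1
    linarith
  obtain ⟨l1, hl1d⟩ : ∃ l1 : Fin (n + 1) → v.adicCompletion K, l1 = fun i =>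
    (lf c i0)⁻¹ * lf c i := ⟨_, rfl⟩
  have hl1 : ∀ i, ‖l1 i‖ ≤ 1 := by
    intro i
    rw [hl1d]
    show ‖(lf c i0)⁻¹ * lf c i‖ ≤ 1
    rw [norm_mul, norm_inv, inv_mul_le_iff₀ (by linarith), mul_one]
    exact hi0 i
  have hl1i0 : l1 i0 = 1 := by
    rw [hl1d]
    exact inv_mul_cancel₀ hi2
  choose ξ hξ using fun i => happ' (l1 i) (hl1 i)
  have hξ0 : π (ξ i0) ≠ 0 := by
    intro h
    have h3 := (hlt' _).2 h
    have h4 := hξ i0
    rw [hl1i0] at h4
    have h5 : ‖(1 : v.adicCompletion K)‖ < 1 := by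
      have : (1 : v.adicCompletion K) = ι (ξ i0) + -(ι (ξ i0) - 1) := by ring
      rw [this]
      exact add_lt_one h3 (by rwa [norm_neg])
    rw [norm_one] at h5
    exact lt_irrefl _ h5
  -- the zero over the residue field
  obtain ⟨xb, hxb0, hxA, hxB, hxl, hxi⟩ := hFFZ k n hn hcard (A'.map π) (B'.map π)
    (fun i => π (ξ i)) hSD' (fun h => hξ0 (congrFun h i0))
  choose x hx using fun i => hπs (xb i)
  have hxx : (fun i => π (x i)) = xb := funext hx
  have hJ : LinearIndependent k ![(2 : ℕ) • (A'.map π *ᵥ xb), (2 : ℕ) • (B'.map π *ᵥ xb),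
      fun i => π (ξ i)] := by
    have h3 := hxi.units_smul ![Units.mk0 (2 : k) h2, Units.mk0 (2 : k) h2, 1]
    convert h3 using 1
    funext i
    fin_cases i
    · simp [nsmul_eq_mul, Units.smul_def, ← Nat.cast_smul_eq_nsmul k]
    · simp [nsmul_eq_mul, Units.smul_def, ← Nat.cast_smul_eq_nsmul k]
    · simp
  obtain ⟨Rb, hRb⟩ := exists_dual _ hJ
  choose R hR using fun q j => hπs (Rb q j)
  -- Hensel
  have hmv : ∀ (M : Matrix (Fin (n + 1)) (Fin (n + 1)) (𝓞 K)) (T : Type) [CommRing T]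
      (φ : 𝓞 K →+* T), (M.map φ *ᵥ fun i => φ (x i)) = fun i => φ ((M *ᵥ x) i) := by
    intro M T _ φ
    funext i
    exact (RingHom.map_mulVec φ M x i).symm
  have hdp : ∀ (a b : Fin (n + 1) → 𝓞 K) (T : Type) [CommRing T]
      (φ : 𝓞 K →+* T), ((fun i => φ (a i)) ⬝ᵥ fun i => φ (b i)) = φ (a ⬝ᵥ b) := by
    intro a b T _ φ
    exact (RingHom.map_dotProduct φ a b).symm
  have hsm : ∀ (M : Matrix (Fin (n + 1)) (Fin (n + 1)) (𝓞 K)) (T : Type) [CommRing T]
      (φ : 𝓞 K →+* T), ((2 : ℕ) • (M.map φ *ᵥ fun i => φ (x i))) =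
        fun i => φ ((2 : ℕ) • (M *ᵥ x) i) := by
    intro M T _ φ
    rw [hmv]
    funext i
    rw [map_nsmul]
    rfl
  obtain ⟨y, hy0, hyA, hyB, hyl⟩ := hHN3 (v.adicCompletion K) (n + 1) (A'.map ι) (B'.map ι) l1
    (fun i => ι (x i)) (fun q j => ι (R q j))
    (by
      have h3 : A'.map ι = ((d • A).map (ic v)) := by
        rw [← hA', Matrix.map_map]; rfl
      rw [h3]
      unfold Matrix.IsSymm
      rw [← Matrix.transpose_map, Matrix.transpose_smul, hSD.sA])
    (by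
      have h3 : B'.map ι = ((d • B).map (ic v)) := by
        rw [← hB', Matrix.map_map]; rfl
      rw [h3]
      unfold Matrix.IsSymm
      rw [← Matrix.transpose_map, Matrix.transpose_smul, hSD.sB])
    (fun i j => hint' _) (fun i j => hint' _) hl1 (fun i => hint' _)
    (by
      obtain ⟨i, hi⟩ := Function.ne_iff.1 hxb0
      refine ⟨i, le_antisymm (hint' _) (not_lt.1 fun h => hi ?_)⟩
      rw [hlt', hx] at h
      exact h)
    (fun p i => hint' _)
    (by
      rw [hmv, hdp, hlt', ← hdp, ← hmv, hxx]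
      exact hxA)
    (by
      rw [hmv, hdp, hlt', ← hdp, ← hmv, hxx]
      exact hxB)
    (by
      have h3 : (l1 ⬝ᵥ fun i => ι (x i)) = ι (ξ ⬝ᵥ x) +
          ∑ i, -(ι (ξ i) - l1 i) * ι (x i) := by
        rw [← hdp]
        unfold dotProduct
        rw [← Finset.sum_add_distrib]
        exact Finset.sum_congr rfl fun i _ => by ring
      rw [h3]
      refine add_lt_one ?_ (sum_lt_one _ _ fun i _ => ?_)
      · rw [hlt', ← hdp, hxx]
        exact hxl
      · rw [norm_mul, norm_neg]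
        exact mul_lt_one_of_nonneg_of_lt_one_left (norm_nonneg _) (hξ i) (hint' _))
    (by
      have hone : ∀ p q : Fin 3, (1 : Matrix (Fin 3) (Fin 3) (v.adicCompletion K)) p q =
          ι ((1 : Matrix (Fin 3) (Fin 3) (𝓞 K)) p q) := by
        intro p q
        rw [Matrix.one_apply, Matrix.one_apply]
        split_ifs <;> simp
      have honek : ∀ p q : Fin 3, (1 : Matrix (Fin 3) (Fin 3) k) p q =
          π ((1 : Matrix (Fin 3) (Fin 3) (𝓞 K)) p q) := by
        intro p q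
        rw [Matrix.one_apply, Matrix.one_apply]
        split_ifs <;> simp
      have hRq : ∀ q, (fun j => π (R q j)) = Rb q := fun q => funext fun j => hR q j
      have hA3 : ∀ (M : Matrix (Fin (n + 1)) (Fin (n + 1)) (𝓞 K)) (p q : Fin 3),
          ((2 : ℕ) • (M.map π *ᵥ xb)) ⬝ᵥ Rb q = (1 : Matrix (Fin 3) (Fin 3) k) p q →
          ‖((2 : ℕ) • (M.map ι *ᵥ fun i => ι (x i))) ⬝ᵥ (fun j => ι (R q j)) -
            (1 : Matrix (Fin 3) (Fin 3) (v.adicCompletion K)) p q‖ < 1 := by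
        intro M p q h3
        rw [hsm, hdp, hone, ← map_sub, hlt', map_sub, ← hdp, ← hsm, hxx, hRq, h3, honek, sub_self]
      intro p q
      fin_cases p
      · exact hA3 A' 0 q (hRb 0 q)
      · exact hA3 B' 1 q (hRb 1 q)
      · show ‖l1 ⬝ᵥ (fun j => ι (R q j)) -
            (1 : Matrix (Fin 3) (Fin 3) (v.adicCompletion K)) 2 q‖ < 1
        have h3 : (l1 ⬝ᵥ fun j => ι (R q j)) -
            (1 : Matrix (Fin 3) (Fin 3) (v.adicCompletion K)) 2 q =
            ι (ξ ⬝ᵥ (R q) - (1 : Matrix (Fin 3) (Fin 3) (𝓞 K)) 2 q) +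
            ∑ i, -(ι (ξ i) - l1 i) * ι (R q i) := by
          rw [map_sub, ← hone, ← hdp]
          unfold dotProduct
          rw [sub_add_eq_add_sub, ← Finset.sum_add_distrib]
          congr 1
          exact Finset.sum_congr rfl fun i _ => by ring
        rw [h3]
        refine add_lt_one ?_ (sum_lt_one _ _ fun i _ => ?_)
        · rw [hlt', map_sub, ← hdp, hRq, ← honek, sub_eq_zero]
          exact hRb 2 q
        · rw [norm_mul, norm_neg]
          exact mul_lt_one_of_nonneg_of_lt_one_left (norm_nonneg _) (hξ i) (hint' _))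
  -- back to the section
  have hdv : ic v d ≠ 0 := by
    rw [Ne, map_eq_zero]
    exact hd
  have hback : ∀ (M : Matrix (Fin (n + 1)) (Fin (n + 1)) K)
      (M' : Matrix (Fin (n + 1)) (Fin (n + 1)) (𝓞 K)),
      M'.map (algebraMap (𝓞 K) K) = d • M → y ⬝ᵥ (M'.map ι *ᵥ y) = 0 →
      y ⬝ᵥ (M.map (ic v) *ᵥ y) = 0 := by
    intro M M' h3 h4
    have h5 : M'.map ι = ic v d • M.map (ic v) := by
      have h6 : M'.map ι = (d • M).map (ic v) := by
        rw [← h3, Matrix.map_map]; rfl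
      rw [h6]
      ext i j
      simp
    rw [h5, Matrix.smul_mulVec, dotProduct_smul, smul_eq_mul] at h4
    exact (mul_eq_zero.1 h4).resolve_left hdv
  have hly : lf c ⬝ᵥ y = 0 := by
    have h3 : l1 ⬝ᵥ y = (lf c i0)⁻¹ * (lf c ⬝ᵥ y) := by
      rw [hl1d]
      unfold dotProduct
      rw [Finset.mul_sum]
      exact Finset.sum_congr rfl fun i _ => by ring
    rw [h3] at hyl
    exact (mul_eq_zero.1 hyl).resolve_left (inv_ne_zero hi2)
  have hEy := Ec_tail c y hly
  refine ⟨fun i => y i.succ, ?_, ?_, ?_⟩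
  · intro h
    rw [h, mulVec_zero] at hEy
    exact hy0 hEy.symm
  · rw [sec_val, hEy]
    exact hback A A' hA' hyA
  · rw [sec_val, hEy]
    exact hback B B' hB' hyB

end Pool.Agent.H72.N6H
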